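import Pool.Agent.H97.PRK.Targets

/-!
# MP_e37c09_lc: ordinal definable classes of small sets modulo the club sets
-/

open Ordinal Cardinal Order Set
open scoped ZFSet

universe u

namespace HD.PRK

/-- Modulo the club sets there are fewer than `δ` ordinal definable classes of nonempty sets of
at most `μ` ordinals below `κ` of cofinality at most `μ`, for each `μ < δ`. -/
def CLS (δ κ : Ordinal.{u}) : Prop := ∀ μ < δ, ∃ τ < δ, ∃ g : Ordinal.{u} → ZFSet.{u} → Prop,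
  ∀ Q, OD Q → ∃ i < τ, ∃ C, Clb κ C ∧ ∀ x, SmS μ κ C x → (x ∈ Q ↔ g i x)

/-- For each `μ < δ` and each ordinal definable function `f` there is a club set `C` such that there
are fewer than `δ` ordinals `i` with `i = f x < min x` for some nonempty set `x` of at most `μ`
ordinals of cofinality at most `μ` in `C`. -/
def RBM (δ κ : Ordinal.{u}) : Prop := ∀ μ < δ, ∀ f, OD f →
  (∀ x y z, ZFSet.pair x y ∈ f → ZFSet.pair x z ∈ f → y = z) → ∃ C, Clb κ C ∧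
    Few δ {i | ∃ x, SmS μ κ C x ∧ ZFSet.pair x i.toZFSet ∈ f ∧
      ∀ a : Ordinal.{u}, a.toZFSet ∈ x → i < a}

end HD.PRK

namespace Pool.Agent.H97.PRK

open _root_.HD HD.PRK

theorem sms_mu {μ μ' κ : Ordinal.{u}} (h : μ ≤ μ') {C : Set Ordinal.{u}} {x : ZFSet.{u}}
    (hx : SmS μ κ C x) : SmS μ' κ C x :=
  ⟨hx.ne, fun z hz => by
    obtain ⟨a, h1, h2, h3, h4⟩ := hx.mem z hz
    exact ⟨a, h1, h2, h3.trans h, h4⟩, by
    obtain ⟨g, hg⟩ := hx.few
    refine ⟨g, fun a ha => ?_⟩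
    obtain ⟨i, hi, h1⟩ := hg a ha
    exact ⟨i, hi.trans_le h, h1⟩⟩

theorem sms_cl {μ κ : Ordinal.{u}} {C C' : Set Ordinal.{u}} (h : C ⊆ C') {x : ZFSet.{u}}
    (hx : SmS μ κ C x) : SmS μ κ C' x :=
  ⟨hx.ne, fun z hz => by
    obtain ⟨a, h1, h2, h3, h4⟩ := hx.mem z hz
    exact ⟨a, h1, h h2, h3, h4⟩, hx.few⟩

theorem sms_sub {μ κ : Ordinal.{u}} {C : Set Ordinal.{u}} {x : ZFSet.{u}}
    (hx : SmS μ κ C x) : x ⊆ κ.toZFSet := by
  intro z hz
  obtain ⟨a, h1, -, -, rfl⟩ := hx.mem z hz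
  exact toZFSet_mem_toZFSet_iff.2 h1

theorem cls_count (h3a : T_L3A.{u}) (h3b : T_L3B.{u}) (D K : Cardinal.{u}) (hD1 : D.IsRegular)
    (hD2 : D.IsStrongLimit) (hD3 : ℵ₀ < D) (hK : K.IsRegular) (hDK : D < K) (μ : Ordinal.{u})
    (F : ZFSet.{u}) (hF : Few D.ord (SpS μ K.ord F)) : ∃ i < D.ord, ∃ k < D.ord, i ≠ k ∧
      ¬ PosX μ K.ord (fun x => ¬ (i ∈ sec F x ↔ k ∈ sec F x)) := by
  have hm : IsSuccLimit D.ord := Cardinal.isSuccLimit_ord hD3.le
  have hmK : D.ord < K.ord := Cardinal.ord_lt_ord.2 hDK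
  set Z : ZFSet.{u} := ZFSet.sep (fun Y => ∀ n < D.ord, PosX μ K.ord fun x =>
    Agr F x n {a | a.toZFSet ∈ Y}) (ZFSet.powerset D.ord.toZFSet) with hZ
  obtain ⟨ν, hν, e, he⟩ := h3b D K hD2 hD3 μ F hF D.ord hmK hm Z (fun Y hY => by
    rw [hZ, ZFSet.mem_sep, ZFSet.mem_powerset] at hY
    exact hY)
  set d : Iio D.ord → Set (Iio ν.ord) := fun i => {k | i.1.toZFSet ∈ e k.1} with hd
  have hninj : ¬ Function.Injective d := by
    intro hinj
    have h1 := Cardinal.mk_le_of_injective hinj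
    have h2 : #(Iio ν.ord) = Cardinal.lift.{u + 1} ν := by
      rw [Cardinal.mk_Iio_ordinal, Cardinal.card_ord]
    have h3 : #(Iio D.ord) = Cardinal.lift.{u + 1} D := by
      rw [Cardinal.mk_Iio_ordinal, Cardinal.card_ord]
    rw [Cardinal.mk_set, h2, h3, ← Cardinal.lift_two_power, Cardinal.lift_le] at h1
    exact absurd (hD2.two_power_lt hν) (not_lt.2 h1)
  have hex : ∃ i k : Iio D.ord, d i = d k ∧ i ≠ k := by
    by_contra hcon
    apply hninj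
    intro i k hik
    by_contra hne
    exact hcon ⟨i, k, hik, hne⟩
  obtain ⟨⟨i, hi⟩, ⟨k, hk⟩, hik, hne⟩ := hex
  refine ⟨i, hi, k, hk, fun h => hne (Subtype.ext h), fun hP => ?_⟩
  refine h3a D K hD1 hD2 hD3 hK hDK μ F hF D.ord hmK fun C hC => ?_
  obtain ⟨x, hx, hxp⟩ := hP C hC
  refine ⟨x, hx, fun hpos => hxp ?_⟩
  have hYZ : os D.ord (sec F x) ∈ Z := by
    rw [hZ, ZFSet.mem_sep, ZFSet.mem_powerset]
    refine ⟨fun z hz => (ZFSet.mem_sep.1 hz).1, fun n hn C' hC' => ?_⟩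
    obtain ⟨x', hx', hxa⟩ := hpos C' hC'
    refine ⟨x', hx', fun a ha => ?_⟩
    rw [hxa a (ha.trans hn)]
    show a ∈ sec F x ↔ a.toZFSet ∈ os D.ord (sec F x)
    rw [ord_mem_os]
    exact ⟨fun h => ⟨ha.trans hn, h⟩, fun h => h.2⟩
  obtain ⟨b, hb, hbe⟩ := he _ hYZ
  have h1 : ∀ c : Ordinal.{u}, c < D.ord → (c ∈ sec F x ↔ c.toZFSet ∈ e b) := by
    intro c hc
    rw [← hbe, ord_mem_os]
    exact ⟨fun h => ⟨hc, h⟩, fun h => h.2⟩
  have h2 : (⟨b, hb⟩ : Iio ν.ord) ∈ d ⟨i, hi⟩ ↔ (⟨b, hb⟩ : Iio ν.ord) ∈ d ⟨k, hk⟩ := by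
    rw [hik]
  rw [h1 i hi, h1 k hk]
  exact h2

/-- new codes -/
def Nw (en : Ordinal.{u} → ZFSet.{u}) (μ κ : Ordinal.{u}) : Set Ordinal.{u} :=
  {c | ∀ c' < c, PosX μ κ (fun x => ¬ (x ∈ en c' ↔ x ∈ en c))}

theorem ds_nw (hL : T_LPX.{u}) {en : Ordinal.{u} → ZFSet.{u}} (hen : EN en) (μ κ : Ordinal.{u}) :
    DS (Nw en μ κ) := by
  have h0 := hL (fun x v => ¬ (x ∈ v 2 ↔ x ∈ v 3)) (((Loc.mem 0 3).iff (Loc.mem 0 4)).not) 0 1
  have h1 : DZ.{u} fun v => PosX μ κ (fun x => ¬ (x ∈ v 0 ↔ x ∈ v 1)) := by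
    have h2 : DZ.{u} fun v => (μ.toZFSet.IsOrdinal ∧ κ.toZFSet.IsOrdinal ∧
        PosX μ.toZFSet.rank κ.toZFSet.rank (fun x => ¬ (x ∈ v 0 ↔ x ∈ v 1))) := by
      refine DZ.od (R := fun m v => m.IsOrdinal ∧ κ.toZFSet.IsOrdinal ∧
        PosX m.rank κ.toZFSet.rank (fun x => ¬ (x ∈ v 0 ↔ x ∈ v 1))) (OD.ordinal μ) ?_
      refine DZ.od (R := fun k v => (v 0).IsOrdinal ∧ k.IsOrdinal ∧
        PosX (v 0).rank k.rank (fun x => ¬ (x ∈ v 1 ↔ x ∈ v 2))) (OD.ordinal κ) ?_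
      refine (h0.dz.ren fun n => if n = 0 then 1 else if n = 1 then 0 else n).congr fun v => ?_
      simp
    refine h2.congr fun v => ?_
    rw [rank_toZFSet, rank_toZFSet]
    exact ⟨fun h => ⟨ZFSet.isOrdinal_toZFSet _, ZFSet.isOrdinal_toZFSet _, h⟩, fun h => h.2.2⟩
  have h2 : DZ.{u} fun v => (v 1).IsOrdinal ∧ (v 0).IsOrdinal ∧
      PosX μ κ (fun x => ¬ (x ∈ en (v 0).rank ↔ x ∈ en (v 1).rank)) := by
    refine NF.dz_en' hen (R := fun y v => (v 0).IsOrdinal ∧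
      PosX μ κ (fun x => ¬ (x ∈ en (v 0).rank ↔ x ∈ y))) 1 ?_
    refine NF.dz_en' hen (R := fun z v => PosX μ κ (fun x => ¬ (x ∈ z ↔ x ∈ v 0))) 1 ?_
    exact h1.ren fun n => if n = 0 then 0 else 1
  have h3 : DZ.{u} fun v => ∀ c' ∈ v 0, (v 0).IsOrdinal ∧ c'.IsOrdinal ∧
      PosX μ κ (fun x => ¬ (x ∈ en c'.rank ↔ x ∈ en (v 0).rank)) := by
    refine DZ.allMem (R := fun c' v => (v 0).IsOrdinal ∧ c'.IsOrdinal ∧
      PosX μ κ (fun x => ¬ (x ∈ en c'.rank ↔ x ∈ en (v 0).rank))) 0 ?_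
    exact h2
  refine ⟨_, h3, fun w => ?_⟩
  show w 0 ∈ Nw en μ κ ↔ ∀ c' ∈ (w 0).toZFSet, (w 0).toZFSet.IsOrdinal ∧ c'.IsOrdinal ∧
    PosX μ κ (fun x => ¬ (x ∈ en c'.rank ↔ x ∈ en (w 0).toZFSet.rank))
  rw [rank_toZFSet]
  constructor
  · intro h c' hc'
    obtain ⟨c', h4, rfl⟩ := mem_toZFSet_iff.1 hc'
    refine ⟨ZFSet.isOrdinal_toZFSet _, ZFSet.isOrdinal_toZFSet _, ?_⟩
    rw [rank_toZFSet]
    exact h c' h4
  · intro h c' hc'
    have := (h _ (toZFSet_mem_toZFSet_iff.2 hc')).2.2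
    rwa [rank_toZFSet] at this

theorem posx_or {μ : Ordinal.{u}} {K : Cardinal.{u}} (hK0 : ℵ₀ < K) (hK : K.IsRegular)
    {A B : ZFSet.{u} → Prop} (h : PosX μ K.ord (fun x => A x ∨ B x)) (hA : ¬ PosX μ K.ord A) :
    PosX μ K.ord B := by
  unfold PosX at hA
  push Not at hA
  obtain ⟨C1, hC1, hC2⟩ := hA
  intro C hC
  obtain ⟨x, hx, hxp⟩ := h (C ∩ C1) (Pool.Agent.H54.CL.clb_inter hK0 hK hC hC1)
  rcases hxp with hxp | hxp
  · exact absurd hxp (hC2 x (sms_cl inter_subset_right hx))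
  · exact ⟨x, sms_cl inter_subset_left hx, hxp⟩

theorem cls_core (hL : T_LPX.{u}) (h3a : T_L3A.{u}) (h3b : T_L3B.{u}) (D K : Cardinal.{u})
    (hD1 : D.IsRegular) (hD2 : D.IsStrongLimit) (hD3 : ℵ₀ < D) (hK : K.IsRegular) (hDK : D < K)
    (μ : Ordinal.{u}) (hF : ∀ F, OD F → Few D.ord (SpS μ K.ord F)) :
    ∃ τ < D.ord, ∃ g : Ordinal.{u} → ZFSet.{u} → Prop, ∀ Q, OD Q → ∃ i < τ, ∃ C, Clb K.ord C ∧
      ∀ x, SmS μ K.ord C x → (x ∈ Q ↔ g i x) := by
  obtain ⟨en, hen⟩ := HD.All.en.{u}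
  have hK0 : ℵ₀ < K := hD3.trans hDK
  have hDS := ds_nw hL hen μ K.ord
  rcases (HD.All.vh (Nw en μ K.ord)).2.2.2 D.ord with hf | hn
  · obtain ⟨τ, hτ, e, he⟩ := hf
    refine ⟨τ, hτ, fun i x => x ∈ en (e i), fun Q hQ => ?_⟩
    obtain ⟨c, hc⟩ := (hen.od Q).1 hQ
    have hex : {c | ¬ PosX μ K.ord (fun x => ¬ (x ∈ en c ↔ x ∈ Q))}.Nonempty := by
      refine ⟨c, ?_⟩
      show ¬ PosX μ K.ord (fun x => ¬ (x ∈ en c ↔ x ∈ Q))
      intro h
      obtain ⟨x, -, hx⟩ := h univ ⟨fun a ha => ⟨succ a, (Cardinal.isSuccLimit_ord hK0.le).succ_lt ha,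
        lt_succ a, mem_univ _⟩, fun _ _ _ _ => mem_univ _⟩
      exact hx (by rw [hc])
    obtain ⟨z, hz, hmin⟩ := WellFounded.has_min
      (r := ((· < ·) : Ordinal.{u} → _ → Prop)) Ordinal.lt_wf _ hex
    have hz' : ¬ PosX μ K.ord (fun x => ¬ (x ∈ en z ↔ x ∈ Q)) := hz
    have hzN : z ∈ Nw en μ K.ord := by
      intro c' hc'
      have h1 : PosX μ K.ord (fun x => ¬ (x ∈ en c' ↔ x ∈ Q)) := by
        by_contra hcon
        exact hmin c' hcon hc'
      refine posx_or hK0 hK (A := fun x => ¬ (x ∈ en z ↔ x ∈ Q)) ?_ hz'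
      intro C hC
      obtain ⟨x, hx, hxp⟩ := h1 C hC
      refine ⟨x, hx, ?_⟩
      by_cases h2 : x ∈ en z ↔ x ∈ Q
      · right
        intro h3
        exact hxp (h3.trans h2)
      · left
        exact h2
    obtain ⟨i, hi, hei⟩ := he z hzN
    refine ⟨i, hi, ?_⟩
    unfold PosX at hz'
    push Not at hz'
    obtain ⟨C, hC, hC2⟩ := hz'
    refine ⟨C, hC, fun x hx => ?_⟩
    have := hC2 x hx
    show x ∈ Q ↔ x ∈ en (e i)
    rw [hei]
    tauto
  · exfalso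
    choose! z hz using hn
    obtain ⟨R, hR, hRn⟩ := HD.All.db (fun i _ => i ∈ Nw en μ K.ord) hDS
    have hq : ∀ k z : Ordinal.{u}, R (fun n => if n = 0 then k.toZFSet else z.toZFSet) ↔
        nth (Nw en μ K.ord) k z := by
      intro k z
      have h3 := hRn (fun n => if n = 0 then k else z)
      have e : ov (fun n => if n = 0 then k else z) =
          fun n => if n = 0 then k.toZFSet else z.toZFSet := by
        funext n
        show (if n = 0 then k else z).toZFSet = _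
        split_ifs <;> rfl
      rw [e] at h3
      exact h3.symm
    have hβ : Gd (K.ord + ω + ω) := by
      refine ⟨Ordinal.isSuccLimit_add _ Ordinal.isSuccLimit_omega0, ?_⟩
      calc (ω : Ordinal.{u}) ≤ K.ord + ω := le_add_self
        _ < K.ord + ω + ω := by
          have h1 : (0 : Ordinal.{u}) < ω := Ordinal.omega0_pos
          exact lt_add_of_pos_right _ h1
    have hKβ : K.ord < K.ord + ω + ω := by
      have h1 : (0 : Ordinal.{u}) < ω := Ordinal.omega0_pos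
      exact (lt_add_of_pos_right _ h1).trans_le le_self_add
    have hDKo : D.ord < K.ord := Cardinal.ord_lt_ord.2 hDK
    set P : ZFSet.{u} → Prop := fun t => ∃ x a c, t = ZFSet.pair x a ∧ a.IsOrdinal ∧
      R (fun n => if n = 0 then a else c) ∧ c.IsOrdinal ∧ x ∈ en c.rank with hP
    set F : ZFSet.{u} := ZFSet.sep P (V_ (K.ord + ω + ω)) with hFd
    have hFO : OD F := by
      refine Pool.Agent.H45.NF.od_sep (NF.od_V _) ?_
      refine DZ.ex (R := fun x v => ∃ a c, v 0 = ZFSet.pair x a ∧ a.IsOrdinal ∧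
        R (fun n => if n = 0 then a else c) ∧ c.IsOrdinal ∧ x ∈ en c.rank) ?_
      refine DZ.ex (R := fun a v => ∃ c, v 1 = ZFSet.pair (v 0) a ∧ a.IsOrdinal ∧
        R (fun n => if n = 0 then a else c) ∧ c.IsOrdinal ∧ v 0 ∈ en c.rank) ?_
      refine DZ.ex (R := fun c v => v 2 = ZFSet.pair (v 1) (v 0) ∧ (v 0).IsOrdinal ∧
        R (fun n => if n = 0 then v 0 else c) ∧ c.IsOrdinal ∧ v 1 ∈ en c.rank) ?_
      refine (loc_pair 3 2 1).dz.and ((DZ.ord 1).and (DZ.and ?_ ?_))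
      · refine (hR.ren fun n => if n = 0 then 1 else 0).congr fun v => ?_
        have e : (fun n => if n = 0 then v 1 else v 0) = fun n => v (if n = 0 then 1 else 0) := by
          funext n
          split_ifs <;> rfl
        rw [e]
      · exact NF.dz_en' hen (R := fun y v => v 2 ∈ y) 0 (DZ.mem 3 0)
    have hsec : ∀ i < D.ord, ∀ x, x ⊆ K.ord.toZFSet → (i ∈ sec F x ↔ x ∈ en (z i)) := by
      intro i hi x hx
      have hxV : x ∈ V_ (K.ord + ω + ω) := mem_V_of_sub hx (Gd.ord.2 hKβ)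
      constructor
      · intro h
        have h1 : ZFSet.pair x i.toZFSet ∈ F := h
        rw [hFd, ZFSet.mem_sep] at h1
        obtain ⟨-, x', a', c', h2, h3, h4, h5, h6⟩ := h1
        obtain ⟨rfl, rfl⟩ := ZFSet.pair_injective h2
        obtain ⟨c', rfl⟩ := ord_of h5
        have h7 := (hq i c').1 h4
        have h8 : c' = z i := by
          have h9 := (HD.All.vh (Nw en μ K.ord)).2.1
          rcases lt_trichotomy c' (z i) with h | h | h
          · exact absurd ((h9 _ _ _ _ h7 (hz i hi)).2 h) (lt_irrefl _)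
          · exact h
          · exact absurd ((h9 _ _ _ _ (hz i hi) h7).2 h) (lt_irrefl _)
        rw [rank_toZFSet, h8] at h6
        exact h6
      · intro h
        show ZFSet.pair x i.toZFSet ∈ F
        rw [hFd, ZFSet.mem_sep]
        refine ⟨hβ.pair hxV (Gd.ord.2 ((hi.trans hDKo).trans hKβ)), x, i.toZFSet, (z i).toZFSet,
          rfl, ZFSet.isOrdinal_toZFSet _, (hq i (z i)).2 (hz i hi), ZFSet.isOrdinal_toZFSet _, ?_⟩
        rwa [rank_toZFSet]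
    obtain ⟨i, hi, k, hk, hne, hnp⟩ := cls_count h3a h3b D K hD1 hD2 hD3 hK hDK μ F (hF F hFO)
    have key : ∀ i < D.ord, ∀ k < D.ord, i < k →
        PosX μ K.ord (fun x => ¬ (i ∈ sec F x ↔ k ∈ sec F x)) := by
      intro i hi k hk hik
      have h1 := (hz k hk).1 (z i) (((HD.All.vh (Nw en μ K.ord)).2.1 _ _ _ _ (hz i hi)
        (hz k hk)).1 hik)
      intro C hC
      obtain ⟨x, hx, hxp⟩ := h1 C hC
      refine ⟨x, hx, ?_⟩
      show ¬ (i ∈ sec F x ↔ k ∈ sec F x)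
      rw [hsec i hi x (sms_sub hx), hsec k hk x (sms_sub hx)]
      exact hxp
    rcases lt_or_gt_of_ne hne with h | h
    · exact hnp (key i hi k hk h)
    · refine hnp fun C hC => ?_
      obtain ⟨x, hx, hxp⟩ := key k hk i hi h C hC
      exact ⟨x, hx, fun h => hxp h.symm⟩

/-- Modulo the club sets there are fewer than `δ` ordinal definable classes of small sets. -/
theorem cls (hL : T_LPX.{u}) (h3a : T_L3A.{u}) (h3b : T_L3B.{u}) (h2 : T_TWO.{u})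
    {δ : Ordinal.{u}} (hδ : Extendible δ) (hA : ¬ CaseA δ) {K : Cardinal.{u}} (hK : K.IsRegular)
    (hδK : δ < K.ord) : CLS δ K.ord := by
  obtain ⟨D, hD, hDr, hDs, hD0⟩ : ∃ D : Cardinal.{u}, δ = D.ord ∧ D.IsRegular ∧
      D.IsStrongLimit ∧ ℵ₀ < D := by
    obtain ⟨η, -, θ, j, h⟩ := HD.All.xa δ hδ 0
    exact HD.All.xb δ η θ j h
  have hω : ω < δ := by
    rw [hD, ← Cardinal.ord_aleph0]
    exact Cardinal.ord_lt_ord.2 hD0
  intro μ hμ
  subst hD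
  have hmax : max μ ω < D.ord := max_lt hμ hω
  obtain ⟨τ, hτ, g, hg⟩ := cls_core hL h3a h3b D K hDr hDs hD0 hK (Cardinal.ord_lt_ord.1 hδK)
    (max μ ω) (fun F hF => h2 D.ord hδ hA K hK hδK (max μ ω) hmax (le_max_right _ _) F hF)
  refine ⟨τ, hτ, g, fun Q hQ => ?_⟩
  obtain ⟨i, hi, C, hC, h⟩ := hg Q hQ
  exact ⟨i, hi, C, hC, fun x hx => h x (sms_mu (le_max_left _ _) hx)⟩

/-- Ordinal definable functions which are regressive on small sets take few values. -/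
theorem rbm (hNU : T_NU2.{u}) (h2 : T_TWO.{u}) {δ : Ordinal.{u}} (hδ : Extendible δ)
    (hA : ¬ CaseA δ) {K : Cardinal.{u}} (hK : K.IsRegular) (hδK : δ < K.ord) : RBM δ K.ord := by
  obtain ⟨D, hD, hDr, hDs, hD0⟩ : ∃ D : Cardinal.{u}, δ = D.ord ∧ D.IsRegular ∧
      D.IsStrongLimit ∧ ℵ₀ < D := by
    obtain ⟨η, -, θ, j, h⟩ := HD.All.xa δ hδ 0
    exact HD.All.xb δ η θ j h
  have hω : ω < δ := by
    rw [hD, ← Cardinal.ord_aleph0]
    exact Cardinal.ord_lt_ord.2 hD0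
  intro μ hμ f hf hfun
  subst hD
  set μ' := max μ ω with hμ'
  have hmax : μ' < D.ord := max_lt hμ hω
  have hfew := h2 D.ord hδ hA K hK hδK μ' hmax (le_max_right _ _) f hf
  have hK0 : ℵ₀ < K := hD0.trans (Cardinal.ord_lt_ord.1 hδK)
  set A : Set Ordinal.{u} := {i | i < K.ord ∧ PosX μ' K.ord (fun x => i ∈ sec f x)} with hAd
  have hsp : ∀ i ∈ A, ∀ k ∈ A, i < k → i ∈ SpS μ' K.ord f := by
    intro i hi k hk hik
    refine ⟨hi.1, ∅, fun C hC => ?_, fun C hC => ?_⟩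
    · obtain ⟨x, hx, hxi⟩ := hi.2 C hC
      refine ⟨x, hx, fun a ha => ?_, hxi⟩
      constructor
      · intro h
        exact absurd (toZFSet_injective (hfun _ _ _ h hxi)) ha.ne
      · intro h
        exact absurd h (notMem_empty a)
    · obtain ⟨x, hx, hxk⟩ := hk.2 C hC
      refine ⟨x, hx, fun a ha => ?_, fun h => ?_⟩
      · constructor
        · intro h
          exact absurd (toZFSet_injective (hfun _ _ _ h hxk)) (ha.trans hik).ne
        · intro h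
          exact absurd h (notMem_empty a)
      · exact absurd (toZFSet_injective (hfun _ _ _ h hxk)) hik.ne
  have hAfew : Few D.ord A := by
    obtain ⟨τ, hτ, e, he⟩ := hfew
    by_cases hmx : ∃ k ∈ A, ∀ i ∈ A, i ≤ k
    · obtain ⟨k, hk, hkm⟩ := hmx
      refine ⟨τ + 1, (Cardinal.isSuccLimit_ord hD0.le).add_one_lt hτ,
        fun a => if a = τ then k else e a, fun i hi => ?_⟩
      rcases eq_or_lt_of_le (hkm i hi) with h | h
      · exact ⟨τ, Order.lt_add_one_iff.2 le_rfl, by simp [h]⟩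
      · obtain ⟨a, ha, hea⟩ := he i (hsp i hi k hk h)
        exact ⟨a, ha.trans (Order.lt_add_one_iff.2 le_rfl), by simp [ha.ne, hea]⟩
    · push Not at hmx
      refine ⟨τ, hτ, e, fun i hi => ?_⟩
      obtain ⟨k, hk, hik⟩ := hmx i hi
      exact he i (hsp i hi k hk hik)
  obtain ⟨C, hC, hC2⟩ := hNU μ' K hK hK0 (fun n x => n ∉ A ∧ n ∈ sec f x) (fun n hn hpos => by
    by_cases h : n ∈ A
    · obtain ⟨x, -, h1, -⟩ := hpos univ ⟨fun a ha => ⟨succ a,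
        (Cardinal.isSuccLimit_ord hK0.le).succ_lt ha, lt_succ a, mem_univ _⟩,
        fun _ _ _ _ => mem_univ _⟩
      exact h1 h
    · refine h ⟨hn, fun C hC => ?_⟩
      obtain ⟨x, hx, -, h2⟩ := hpos C hC
      exact ⟨x, hx, h2⟩)
  refine ⟨C, hC, ?_⟩
  obtain ⟨τ, hτ, e, he⟩ := hAfew
  refine ⟨τ, hτ, e, fun i hi => ?_⟩
  obtain ⟨x, hx, hxi, hxa⟩ := hi
  have h1 := hC2 x (sms_mu (le_max_left _ _) hx) i hxa
  refine he i ?_
  by_contra hcon
  exact h1 ⟨hcon, hxi⟩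

end Pool.Agent.H97.PRK
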