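import Pool.Agent.H97.PRK.Targets

/-!
# MP_e37c09_lc: elements of small ordinal definable sets if `V_ δ` is contained in HOD
-/

open Ordinal Cardinal Order Set
open scoped ZFSet

universe u

namespace Pool.Agent.H97.PRK

open _root_.HD HD.PRK

/-- the splitting points of a family of subsets of `a` -/
def vDel (a : Ordinal.{u}) (Z : ZFSet.{u}) : Set Ordinal.{u} :=
  {i | i < a ∧ ∃ Y ∈ Z, ∃ Y' ∈ Z, i.toZFSet ∈ Y ∧ i.toZFSet ∉ Y' ∧
    ∀ k ∈ i.toZFSet, k ∈ Y ↔ k ∈ Y'}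

theorem ds_vDel {a : Ordinal.{u}} {Z : ZFSet.{u}} (hZ : OD Z) : DS (vDel a Z) := by
  have h1 : DZ.{u} fun v => ∃ Y ∈ v 0, ∃ Y' ∈ v 0, v 1 ∈ Y ∧ v 1 ∉ Y' ∧
      ∀ k ∈ v 1, k ∈ Y ↔ k ∈ Y' := by
    refine DZ.exMem (R := fun Y v => ∃ Y' ∈ v 0, v 1 ∈ Y ∧ v 1 ∉ Y' ∧
      ∀ k ∈ v 1, k ∈ Y ↔ k ∈ Y') 0 ?_
    refine DZ.exMem (R := fun Y' v => v 2 ∈ v 0 ∧ v 2 ∉ Y' ∧
      ∀ k ∈ v 2, k ∈ v 0 ↔ k ∈ Y') 1 ?_
    refine (DZ.mem 3 1).and ((DZ.mem 3 0).not.and ?_)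
    exact DZ.allMem (R := fun k v => k ∈ v 1 ↔ k ∈ v 0) 3 ((DZ.mem 0 2).iff (DZ.mem 0 1))
  have h2 : DZ.{u} fun v => ∃ Y ∈ Z, ∃ Y' ∈ Z, v 0 ∈ Y ∧ v 0 ∉ Y' ∧
      ∀ k ∈ v 0, k ∈ Y ↔ k ∈ Y' :=
    DZ.od (R := fun z v => ∃ Y ∈ z, ∃ Y' ∈ z, v 0 ∈ Y ∧ v 0 ∉ Y' ∧
      ∀ k ∈ v 0, k ∈ Y ↔ k ∈ Y') hZ h1
  exact (DO.ltc 0 a).and (DZ.do h2)

theorem few_vDel {D ν : Cardinal.{u}} (hD : ℵ₀ ≤ D) (hν : ν < D) {a : Ordinal.{u}}
    {Z : ZFSet.{u}} (hZ : NF.Sz ν Z) : Few D.ord (vDel a Z) := by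
  obtain ⟨e, he⟩ := hZ
  rw [few_iff]
  have h1 : ∀ i : vDel a Z, ∃ p : Iio ν.ord × Iio ν.ord, i.1.toZFSet ∈ e p.1.1 ∧
      i.1.toZFSet ∉ e p.2.1 ∧ ∀ k ∈ i.1.toZFSet, k ∈ e p.1.1 ↔ k ∈ e p.2.1 := by
    rintro ⟨i, -, Y, hY, Y', hY', h1, h2, h3⟩
    obtain ⟨x, hx, rfl⟩ := he Y hY
    obtain ⟨y, hy, rfl⟩ := he Y' hY'
    exact ⟨(⟨x, hx⟩, ⟨y, hy⟩), h1, h2, h3⟩
  choose f hf using h1
  have hinj : Function.Injective f := by
    intro i i' h
    obtain ⟨a1, a2, a3⟩ := hf i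
    obtain ⟨b1, b2, b3⟩ := hf i'
    rw [← h] at b1 b2 b3
    apply Subtype.ext
    rcases lt_trichotomy i.1 i'.1 with h4 | h4 | h4
    · exact absurd ((b3 _ (toZFSet_mem_toZFSet_iff.2 h4)).1 a1) a2
    · exact h4
    · exact absurd ((a3 _ (toZFSet_mem_toZFSet_iff.2 h4)).1 b1) b2
  have h2 : #(vDel a Z) ≤ #(Iio ν.ord × Iio ν.ord) := Cardinal.mk_le_of_injective hinj
  have h3 : #(Iio ν.ord) = Cardinal.lift.{u + 1} ν := by
    rw [Cardinal.mk_Iio_ordinal, Cardinal.card_ord]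
  refine h2.trans_lt ?_
  rw [Cardinal.mk_prod, Cardinal.lift_id, h3, ← Cardinal.lift_mul, Cardinal.lift_lt]
  exact Cardinal.mul_lt_of_lt hD hν hν

/-- If `V_ D.ord` is contained in HOD then the elements of small ordinal definable sets of subsets
of an ordinal are in HOD. -/
theorem vdl {D ν : Cardinal.{u}} (hD : ℵ₀ ≤ D) (hν : ν < D) (hV : ∀ y ∈ V_ D.ord, HOD y)
    {a : Ordinal.{u}} {Z B : ZFSet.{u}} (hZ : OD Z) (hs : NF.Sz ν Z) (hB : B ∈ Z)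
    (hBa : B ⊆ a.toZFSet) : HOD B := by
  obtain ⟨τ, hτ, h1, h2⟩ := Pool.Agent.H17.HD.XK.idx HD.All.vh (few_vDel hD hν (a := a) hs)
  have hDel := ds_vDel (a := a) hZ
  obtain ⟨Q, hQ, hQn⟩ := HD.All.db (fun i _ => i ∈ vDel a Z) hDel
  set b : ZFSet.{u} := os τ {k | ∃ z, nth (vDel a Z) k z ∧ z.toZFSet ∈ B} with hb
  have hbV : b ∈ V_ D.ord :=
    mem_V_of_sub (y := τ.toZFSet) (fun z hz => (ZFSet.mem_sep.1 hz).1) (Gd.ord.2 hτ)
  have hbO : OD b := (hV b hbV).od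
  have hq : ∀ k z : Ordinal.{u}, Q (fun n => if n = 0 then k.toZFSet else z.toZFSet) ↔
      nth (vDel a Z) k z := by
    intro k z
    have h3 := hQn (fun n => if n = 0 then k else z)
    have e : ov (fun n => if n = 0 then k else z) =
        fun n => if n = 0 then k.toZFSet else z.toZFSet := by
      funext n
      show (if n = 0 then k else z).toZFSet = _
      split_ifs <;> rfl
    rw [e] at h3
    exact h3.symm
  -- the definition of `B`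
  have hBO : OD B := by
    refine OD.of_dz ?_
    have hP : DZ.{u} fun v => v 0 ∈ v 2 ∧ v 0 ⊆ v 3 ∧ ∀ x, x.IsOrdinal → ∀ y, y.IsOrdinal →
        Q (fun n => if n = 0 then x else y) → (y ∈ v 0 ↔ x ∈ v 1) := by
      refine (DZ.mem 0 2).and (DZ.and (Loc.sub 0 3).dz ?_)
      refine DZ.all (R := fun x v => x.IsOrdinal → ∀ y, y.IsOrdinal →
        Q (fun n => if n = 0 then x else y) → (y ∈ v 0 ↔ x ∈ v 1)) ?_
      refine (DZ.ord 0).imp ?_
      refine DZ.all (R := fun y v => y.IsOrdinal →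
        Q (fun n => if n = 0 then v 0 else y) → (y ∈ v 1 ↔ v 0 ∈ v 2)) ?_
      refine (DZ.ord 0).imp (DZ.imp ?_ ((DZ.mem 0 2).iff (DZ.mem 1 3)))
      refine (hQ.ren fun n => if n = 0 then 1 else 0).congr fun v => ?_
      have e : (fun n => if n = 0 then v 1 else v 0) = fun n => v (if n = 0 then 1 else 0) := by
        funext n
        split_ifs <;> rfl
      rw [e]
    have h4 : DZ.{u} fun v => v 0 ∈ Z ∧ v 0 ⊆ a.toZFSet ∧ ∀ x, x.IsOrdinal → ∀ y, y.IsOrdinal →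
        Q (fun n => if n = 0 then x else y) → (y ∈ v 0 ↔ x ∈ b) := by
      refine DZ.od (R := fun b v => v 0 ∈ Z ∧ v 0 ⊆ a.toZFSet ∧ ∀ x, x.IsOrdinal →
        ∀ y, y.IsOrdinal → Q (fun n => if n = 0 then x else y) → (y ∈ v 0 ↔ x ∈ b)) hbO ?_
      refine DZ.od (R := fun Z v => v 1 ∈ Z ∧ v 1 ⊆ a.toZFSet ∧ ∀ x, x.IsOrdinal →
        ∀ y, y.IsOrdinal → Q (fun n => if n = 0 then x else y) → (y ∈ v 1 ↔ x ∈ v 0)) hZ ?_
      refine DZ.od (R := fun a v => v 2 ∈ v 0 ∧ v 2 ⊆ a ∧ ∀ x, x.IsOrdinal →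
        ∀ y, y.IsOrdinal → Q (fun n => if n = 0 then x else y) → (y ∈ v 2 ↔ x ∈ v 1))
        (OD.ordinal a) ?_
      exact (hP.ren fun n => if n = 0 then 3 else if n = 1 then 2 else if n = 2 then 1
        else 0).congr fun v => by simp
    refine h4.congr fun v => ⟨fun h => ?_, fun h => ?_⟩
    · rw [h]
      refine ⟨hB, hBa, fun x hx y hy hxy => ?_⟩
      obtain ⟨k, rfl⟩ := ord_of hx
      obtain ⟨z, rfl⟩ := ord_of hy
      have h5 := (hq k z).1 hxy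
      rw [hb, ord_mem_os]
      constructor
      · intro h6
        exact ⟨h2 k z h5, z, h5, h6⟩
      · rintro ⟨-, z', h6, h7⟩
        have h8 : z = z' := by
          have h9 := (HD.All.vh (vDel a Z)).2.1
          rcases lt_trichotomy z z' with h | h | h
          · exact absurd ((h9 _ _ _ _ h5 h6).2 h) (lt_irrefl _)
          · exact h
          · exact absurd ((h9 _ _ _ _ h6 h5).2 h) (lt_irrefl _)
        rwa [h8]
    · obtain ⟨h5, h6, h7⟩ := h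
      by_contra hne
      -- the least difference
      have hex : ∃ i : Ordinal.{u}, ¬ (i.toZFSet ∈ v 0 ↔ i.toZFSet ∈ B) := by
        by_contra hcon
        push Not at hcon
        apply hne
        ext z
        constructor
        · intro hz
          obtain ⟨i, -, rfl⟩ := mem_toZFSet_iff.1 (h6 hz)
          exact (hcon i).1 hz
        · intro hz
          obtain ⟨i, -, rfl⟩ := mem_toZFSet_iff.1 (hBa hz)
          exact (hcon i).2 hz
      obtain ⟨i, hi, hmin⟩ := WellFounded.has_min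
        (r := ((· < ·) : Ordinal.{u} → _ → Prop)) Ordinal.lt_wf
        {i | ¬ (i.toZFSet ∈ v 0 ↔ i.toZFSet ∈ B)} hex
      have hmin' : ∀ k ∈ i.toZFSet, k ∈ v 0 ↔ k ∈ B := by
        intro k hk
        obtain ⟨k, hk', rfl⟩ := mem_toZFSet_iff.1 hk
        by_contra hcon
        exact hmin k hcon hk'
      have hi' : ¬ (i.toZFSet ∈ v 0 ↔ i.toZFSet ∈ B) := hi
      have hiD : i ∈ vDel a Z := by
        by_cases hv : i.toZFSet ∈ v 0
        · refine ⟨?_, v 0, h5, B, hB, hv, fun h => hi' ⟨fun _ => h, fun _ => hv⟩, hmin'⟩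
          exact toZFSet_mem_toZFSet_iff.1 (h6 hv)
        · have hv2 : i.toZFSet ∈ B := by
            by_contra hcon
            exact hi' ⟨fun h => absurd h hv, fun h => absurd h hcon⟩
          refine ⟨?_, B, hB, v 0, h5, hv2, hv, fun k hk => (hmin' k hk).symm⟩
          exact toZFSet_mem_toZFSet_iff.1 (hBa hv2)
      obtain ⟨k, -, hk⟩ := (HD.All.vh (vDel a Z)).1 i hiD
      have h8 := h7 k.toZFSet (ZFSet.isOrdinal_toZFSet k) i.toZFSet
        (ZFSet.isOrdinal_toZFSet i) ((hq k i).2 hk)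
      apply hi'
      rw [h8, hb, ord_mem_os]
      constructor
      · rintro ⟨-, z', h9, h10⟩
        have h11 : i = z' := by
          have h12 := (HD.All.vh (vDel a Z)).2.1
          rcases lt_trichotomy i z' with h | h | h
          · exact absurd ((h12 _ _ _ _ hk h9).2 h) (lt_irrefl _)
          · exact h
          · exact absurd ((h12 _ _ _ _ h9 hk).2 h) (lt_irrefl _)
        rwa [h11]
      · intro h9
        exact ⟨h2 k i hk, i, hk, h9⟩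
  exact HOD.of_sub hBO hBa

end Pool.Agent.H97.PRK
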