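import Pool.Agent.H97.PRK.Fin
import Pool.Agent.H97.PRK.VDL
import Pool.Agent.H97.PRK.CLS
import Pool.Agent.H14.PRK.CI
import Pool.Agent.H14.PRK.LPX
import Pool.Agent.H67.PRK.LOC
import Pool.Agent.H68.PRK.LFU
import Pool.Agent.H40.PRK.JX
import Pool.Agent.H79.PRK.SJ1
import Pool.Agent.H55.PRK.SJ2
import Pool.Agent.H10.PRK.S1
import Pool.Agent.H67.PRK.AL
import Pool.Agent.H26.PRK.CNA
import Pool.Agent.H19.PRK.CNB
import Pool.Agent.H15.PRK.Cont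
import Pool.Agent.H4.PRK.TWO
import Pool.Agent.H15.PRK.NU
import Pool.Agent.H88.PRK.L3A
import Pool.Agent.H36.PRK.L3B
import Pool.Agent.H17.PRK.L3
import Pool.Agent.H89.PRK.DEF
import Pool.Agent.H36.PRK.NBA
import Pool.Agent.H19.PRK.NBF
import Pool.Agent.H10.PRK.GCX
import Pool.Agent.H57.PRK.HOM
import Pool.Agent.H4.PRK.INB
import Pool.Agent.H40.PRK.EQ

/-!
# MP_e37c09_lc: small sets of points of a club. All parts
-/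

open Ordinal Cardinal Order Set
open scoped ZFSet

universe u

namespace Pool.Agent.H97.PRK

open _root_.HD HD.PRK

theorem a_CI : HD.PRK.T_CI.{u} := Pool.Agent.H14.PRK.pf_CI
theorem a_LPX : T_LPX.{u} := Pool.Agent.H14.PRK.pf_LPX
theorem a_LOC : T_LOC.{u} := (Pool.Agent.H67.PRK.pf_LOC a_LPX).1
theorem a_LOP : T_LOP.{u} := (Pool.Agent.H67.PRK.pf_LOC a_LPX).2
theorem a_LFW : T_LFW.{u} := (Pool.Agent.H68.PRK.pf_LFU a_LOC).1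
theorem a_LUN : T_LUN.{u} := (Pool.Agent.H68.PRK.pf_LFU a_LOC).2
theorem a_JX : T_JX.{u} := Pool.Agent.H40.PRK.pf_JX
theorem a_SJ1 : T_SJ1.{u} := Pool.Agent.H79.PRK.pf_SJ1 a_JX
theorem a_SJ2 : T_SJ2.{u} := Pool.Agent.H55.PRK.pf_SJ2 a_JX
theorem a_S1 : T_S1.{u} := Pool.Agent.H10.PRK.pf_S1 a_JX a_SJ1 a_SJ2
theorem a_AL : T_AL.{u} := Pool.Agent.H67.PRK.pf_AL
theorem a_CNA : T_CNA.{u} := Pool.Agent.H26.PRK.pf_CNA a_S1 a_LFW a_LUN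
theorem a_CNB : T_CNB.{u} := Pool.Agent.H19.PRK.pf_CNB
theorem a_CON : T_CON.{u} := Pool.Agent.H15.PRK.pf_CON a_LOC a_CNA a_CNB
theorem a_TWO : T_TWO.{u} := Pool.Agent.H4.PRK.pf_TWO a_LFW a_AL a_CON
theorem a_NU1 : T_NU1.{u} := (Pool.Agent.H15.PRK.pf_NU a_CI).1
theorem a_NU2 : T_NU2.{u} := (Pool.Agent.H15.PRK.pf_NU a_CI).2
theorem a_L3A : T_L3A.{u} := Pool.Agent.H88.PRK.pf_L3A a_NU1
theorem a_L3B : T_L3B.{u} := Pool.Agent.H36.PRK.pf_L3B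
theorem a_DEF : T_DEF.{u} := Pool.Agent.H89.PRK.pf_DEF
theorem a_L3 : T_L3.{u} := Pool.Agent.H17.PRK.pf_L3 a_LOP a_NU2 a_L3A a_L3B
theorem a_NBA : T_NBA.{u} := Pool.Agent.H36.PRK.pf_NBA a_CI a_TWO a_L3 a_DEF
theorem a_NBF : T_NBF.{u} := Pool.Agent.H19.PRK.pf_NBF
theorem a_GCX : T_GCX.{u} := Pool.Agent.H10.PRK.pf_GCX
theorem a_HOM : T_HOM.{u} := Pool.Agent.H57.PRK.pf_HOM
theorem a_EQ : T_EQ.{u} := Pool.Agent.H40.PRK.pf_EQ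

theorem a_CLS {δ : Ordinal.{u}} (hδ : Extendible δ) (hA : ¬ CaseA δ) {K : Cardinal.{u}}
    (hK : K.IsRegular) (hδK : δ < K.ord) : CLS δ K.ord :=
  cls a_LPX a_L3A a_L3B a_TWO hδ hA hK hδK

theorem a_RBM {δ : Ordinal.{u}} (hδ : Extendible δ) (hA : ¬ CaseA δ) {K : Cardinal.{u}}
    (hK : K.IsRegular) (hδK : δ < K.ord) : RBM δ K.ord :=
  rbm a_NU2 a_TWO hδ hA hK hδK

end Pool.Agent.H97.PRK
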