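import Pool.Agent.H97.PRK.Targets

/-!
# MP_e37c09_lc: small sets of points of a club. The theorem from its parts
-/

open Ordinal Cardinal Order Set
open scoped ZFSet

universe u

namespace Pool.Agent.H97.PRK

open _root_.HD HD.PRK

theorem sml_mono {δ κ : Ordinal.{u}} {C C' : Set Ordinal.{u}} (h : C ⊆ C') {x : ZFSet.{u}}
    (hx : Sml δ κ C x) : Sml δ κ C' x :=
  ⟨hx.ne, fun z hz => by
    obtain ⟨a, h1, h2, h3, h4⟩ := hx.mem z hz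
    exact ⟨a, h1, h h2, h3, h4⟩, hx.few⟩

theorem nb_mono {δ κ : Ordinal.{u}} {C C' : Set Ordinal.{u}} (h : C ⊆ C') (hC : NB δ κ C') :
    NB δ κ C := fun x hx a ha hf B hB hp => hC x (sml_mono h hx) a ha hf B hB hp

theorem clb_gt {K : Cardinal.{u}} (hK : ℵ₀ ≤ K) {η : Ordinal.{u}} (hη : η < K.ord) :
    Clb K.ord {b | η < b} where
  unb := fun a ha => by
    have hlim : IsSuccLimit K.ord := Cardinal.isSuccLimit_ord hK
    refine ⟨succ (max a η), hlim.succ_lt (max_lt ha hη), ?_, ?_⟩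
    · exact lt_of_le_of_lt (le_max_left _ _) (Order.lt_succ (max a η))
    · exact lt_of_le_of_lt (le_max_right _ _) (Order.lt_succ (max a η))
  cls := fun x _ hx0 h => by
    obtain ⟨z, hz, -, hz2⟩ := h 0 hx0
    exact lt_trans hz2 hz

theorem fin_main (h : T_NBA.{u}) (hf : T_NBF.{u}) (hb : T_INB.{u}) (he : T_EQ.{u}) :
    HD.PRK.T_MAIN.{u} := by
  intro δ hδ
  obtain ⟨η, -, θ, j, hj⟩ := HD.All.xa δ hδ 0
  obtain ⟨D, hDδ, hD1, hD2, hD3⟩ := HD.All.xb δ η θ j hj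
  have hωδ : (ℵ₀ : Cardinal.{u}).ord < δ := by
    rw [hDδ]
    exact Cardinal.ord_lt_ord.2 hD3
  refine ⟨⟨fun hA => ?_, ?_⟩, fun hA K hK hKδ => ?_⟩
  · obtain ⟨γ, h1, h2, h3⟩ : ∃ γ : Cardinal.{u}, ℵ₀ ≤ γ ∧ ¬ γ.IsRegular ∧ δ < γ.ord := by
      by_contra hcon
      refine hA fun γ h1 h2 h3 => absurd ⟨γ, h1, h2, h3⟩ hcon
    refine ⟨γ, h1, h2, h3, ?_⟩
    have hK : (succ γ).IsRegular := Cardinal.isRegular_succ h1
    have hK0 : ℵ₀ < succ γ := lt_of_le_of_lt h1 (lt_succ γ)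
    have hγK : γ.ord < (succ γ).ord := Cardinal.ord_lt_ord.2 (lt_succ γ)
    obtain ⟨A, -, hA2, hA3⟩ := hb δ hδ hA (succ γ) hK (h3.trans hγK) univ (fun C hC => by
      obtain ⟨b, hb1, hb2, -, hb3⟩ := HD.All.vc ℵ₀ (succ γ).ord Cardinal.isRegular_aleph0
        (by rw [hK.cof_ord]; exact hK0) C hC
      refine ⟨b, hb1, hb2, mem_univ _, ?_⟩
      have hb4 : b.cof.ord = (ℵ₀ : Cardinal.{u}).ord := hb3
      rw [hb4]
      exact hωδ)
    have hU : Unb (succ γ).ord A := by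
      intro η hη
      obtain ⟨a, ha1, ha2, ha3, -⟩ := hA2 _ (clb_gt hK.1 hη)
      exact ⟨a, ha3, ha2, ha1⟩
    refine ⟨A, hU, (hA3 _ le_rfl ?_ hU).1⟩
    exact lt_of_le_of_lt zero_le hγK
  · rintro ⟨γ, h1, h2, h3, A, h4, h5⟩ hA
    exact he δ hA γ h1 h2 h3 A h4 h5
  · refine ⟨?_, hb δ hδ hA K hK hKδ⟩
    obtain ⟨C1, hC1, hC2⟩ := h δ hδ hA K hK hKδ
    rcases HD.All.m2 δ hδ with hA' | hm
    · exact absurd hA' hA
    have hδ0 : (0 : Ordinal.{u}) < δ := lt_of_le_of_lt zero_le hωδ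
    obtain ⟨δ₀, h1, -, h3⟩ := hm 0 hδ0
    obtain ⟨C3, hC3, hC4⟩ := h3 K hK (h1.trans hKδ)
    have hK0 : ℵ₀ < K := by
      have h5 : (ℵ₀ : Cardinal.{u}).ord < K.ord := hωδ.trans hKδ
      exact Cardinal.ord_lt_ord.1 h5
    refine ⟨C1 ∩ C3, Pool.Agent.H54.CL.clb_inter hK0 hK hC1 hC3, fun a ha haK => hC4 a ha.2 haK, ?_⟩
    exact nb_mono inter_subset_left (hf δ K.ord C1 hC2)

end Pool.Agent.H97.PRK
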