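import Pool.Agent.H97.PRK.Targets

/-!
# MP_e37c09_lc: a regressive function with many values in the first case
-/

open Ordinal Cardinal Order Set
open scoped ZFSet

universe u

namespace HD.PRK

/-- UL. The argument of Ulam: in the first case some ordinal definable function which is regressive on
small sets takes at least `δ` values on a positive class each. -/
def T_UL : Prop := ∀ δ : Ordinal.{u}, CaseA δ → ∀ γ : Cardinal.{u}, ℵ₀ ≤ γ → ¬ γ.IsRegular →
  δ < γ.ord → ∃ f, OD f ∧ (∀ x y z, ZFSet.pair x y ∈ f → ZFSet.pair x z ∈ f → y = z) ∧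
    ∃ W : Set Ordinal.{u}, ¬ Few δ W ∧ ∀ i ∈ W, PosX ω (succ γ).ord fun x =>
      ZFSet.pair x i.toZFSet ∈ f ∧ ∀ a : Ordinal.{u}, a.toZFSet ∈ x → i < a

end HD.PRK
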