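import Pool.Agent.H97.PRK.All
import Pool.Agent.H97.PRK.Targets2
import Pool.Agent.H21.PRK.AME
import Pool.Agent.H75.PRK.COV
import Pool.Agent.H75.PRK.EQB
import Pool.Agent.H75.PRK.UL

/-!
# MP_e37c09_lc: the final form of the theorem on small sets of points of a club
-/

open Ordinal Cardinal Order Set
open scoped ZFSet

universe u

namespace Pool.Agent.H97.PRK

open _root_.HD HD.PRK

theorem clb_univ {K : Cardinal.{u}} (hK : ℵ₀ ≤ K) : Clb K.ord (univ : Set Ordinal.{u}) :=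
  ⟨fun a ha => ⟨succ a, (Cardinal.isSuccLimit_ord hK).succ_lt ha, lt_succ a, mem_univ _⟩,
    fun _ _ _ _ => mem_univ _⟩

/-- In the first case the two properties fail at successors of singular cardinals. -/
theorem cle {δ : Ordinal.{u}} (hω : ω < δ) (hA : CaseA δ) {γ : Cardinal.{u}} (hγ : ℵ₀ ≤ γ)
    (hns : ¬ γ.IsRegular) (hδγ : δ < γ.ord) :
    ¬ CLS δ (succ γ).ord ∧ ¬ RBM δ (succ γ).ord := by
  obtain ⟨f, hf, hfun, W, hW, hpos⟩ := Pool.Agent.H75.PRK.pf_UL a_NU1 δ hA γ hγ hns hδγ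
  have hreg : (succ γ).IsRegular := Cardinal.isRegular_succ hγ
  have hK0 : ℵ₀ < succ γ := hγ.trans_lt (Order.lt_succ γ)
  have hβ : Gd ((succ γ).ord + ω + ω) := by
    refine ⟨Ordinal.isSuccLimit_add _ Ordinal.isSuccLimit_omega0, ?_⟩
    calc (ω : Ordinal.{u}) ≤ (succ γ).ord + ω := le_add_self
      _ < (succ γ).ord + ω + ω := by
        have h1 : (0 : Ordinal.{u}) < ω := Ordinal.omega0_pos
        exact lt_add_of_pos_right _ h1
  have hKβ : (succ γ).ord < (succ γ).ord + ω + ω := by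
    have h1 : (0 : Ordinal.{u}) < ω := Ordinal.omega0_pos
    exact (lt_add_of_pos_right _ h1).trans_le le_self_add
  constructor
  · intro h
    obtain ⟨τ, hτ, g, hg⟩ := h ω hω
    have hQ : ∀ i : Ordinal.{u}, OD (ZFSet.sep (fun x => ZFSet.pair x i.toZFSet ∈ f)
        (V_ ((succ γ).ord + ω + ω))) := by
      intro i
      refine Pool.Agent.H45.NF.od_sep (NF.od_V _) ?_
      refine DZ.od (R := fun y v => ZFSet.pair (v 0) i.toZFSet ∈ y) hf ?_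
      refine DZ.od (R := fun z v => ZFSet.pair (v 1) z ∈ v 0) (OD.ordinal i) ?_
      exact (loc_pmem 2 0 1).dz
    choose a ha C hC hx using fun i : Ordinal.{u} => hg _ (hQ i)
    have hinj : ∀ i ∈ W, ∀ k ∈ W, a i = a k → i = k := by
      intro i hi k _ hik
      obtain ⟨x, hxS, hxi, -⟩ := hpos i hi (C i ∩ C k)
        (Pool.Agent.H54.CL.clb_inter hK0 hreg (hC i) (hC k))
      have hxV : x ∈ V_ ((succ γ).ord + ω + ω) :=
        mem_V_of_sub (sms_sub hxS) (Gd.ord.2 hKβ)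
      have h1 := (hx i x (sms_cl inter_subset_left hxS)).1 (ZFSet.mem_sep.2 ⟨hxV, hxi⟩)
      rw [hik] at h1
      have h2 := (hx k x (sms_cl inter_subset_right hxS)).2 h1
      exact toZFSet_injective (hfun _ _ _ hxi (ZFSet.mem_sep.1 h2).2)
    classical
    refine hW ⟨τ, hτ, fun b => if h : ∃ i ∈ W, a i = b then h.choose else 0, fun i hi =>
      ⟨a i, ha i, ?_⟩⟩
    have hex : ∃ k ∈ W, a k = a i := ⟨i, hi, rfl⟩
    show (if h : ∃ k ∈ W, a k = a i then h.choose else 0) = i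
    rw [dif_pos hex]
    exact hinj _ hex.choose_spec.1 _ hi hex.choose_spec.2
  · intro h
    obtain ⟨C, hC, τ, hτ, e, he⟩ := h ω hω f hf hfun
    refine hW ⟨τ, hτ, e, fun i hi => he i ?_⟩
    obtain ⟨x, hx, hxi, hxa⟩ := hpos i hi C hC
    exact ⟨x, hx, hxi, hxa⟩

theorem last (δ : Ordinal.{u}) (hδ : Extendible δ) :
    (∀ K : Cardinal.{u}, K.IsRegular → δ < K.ord → ∃ C : Set Ordinal.{u}, Clb K.ord C ∧
      (¬ CaseA δ → ∀ a ∈ C, a < K.ord → InacHOD a) ∧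
      ∀ x, Sml δ K.ord C x → ∀ a : Ordinal.{u}, a.toZFSet ∈ x →
        {b : Ordinal.{u} | b.toZFSet ∈ x ∧ b < a}.Finite → ∀ B ⊆ a.toZFSet, NF.ODp x B →
          (∃ Z, OD Z ∧ B ∈ Z ∧ ∃ ν : Cardinal.{u}, ν.ord < δ ∧ NF.Sz ν Z) ∧
          ((∀ y ∈ V_ δ, HOD y) → HOD B)) ∧
    (CaseA δ ↔ ∀ (κ : Ordinal.{u}) (x : ZFSet.{u}), x ⊆ κ.toZFSet →
      (∃ τ < δ, ∃ g : Ordinal.{u} → Ordinal.{u}, ∀ a : Ordinal.{u}, a.toZFSet ∈ x →
        ∃ i < τ, g i = a) → ∃ Z, OD Z ∧ x ∈ Z ∧ ∃ ν : Cardinal.{u}, ν.ord < δ ∧ NF.Sz ν Z) ∧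
    (∀ γ : Cardinal.{u}, ℵ₀ ≤ γ → ¬ γ.IsRegular → δ < γ.ord →
      (¬ CaseA δ ↔ ∃ A : Set Ordinal.{u}, Unb (succ γ).ord A ∧ Hom (succ γ).ord A) ∧
      (¬ CaseA δ ↔ CLS δ (succ γ).ord) ∧ (¬ CaseA δ ↔ RBM δ (succ γ).ord)) ∧
    (¬ CaseA δ → ∀ K : Cardinal.{u}, K.IsRegular → δ < K.ord →
      IND δ K.ord ∧ CLS δ K.ord ∧ RBM δ K.ord) := by
  have hINB : T_INB.{u} := Pool.Agent.H4.PRK.pf_INB a_CI a_GCX a_HOM Pool.Agent.H21.PRK.pf_AME
  have hmain := fin_main a_NBA a_NBF hINB a_EQ δ hδ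
  obtain ⟨D, hD, hDr, -, hD0⟩ : ∃ D : Cardinal.{u}, δ = D.ord ∧ D.IsRegular ∧
      D.IsStrongLimit ∧ ℵ₀ < D := by
    obtain ⟨η, -, θ, j, h⟩ := HD.All.xa δ hδ 0
    exact HD.All.xb δ η θ j h
  have hωδ : (ℵ₀ : Cardinal.{u}).ord < δ := by
    rw [hD]
    exact Cardinal.ord_lt_ord.2 hD0
  have hω : ω < δ := by
    rw [← Cardinal.ord_aleph0]
    exact hωδ
  refine ⟨fun K hK hδK => ?_, Pool.Agent.H75.PRK.pf_EQB δ hδ, fun γ hγ hns hδγ => ?_,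
    fun hA K hK hδK => ⟨(hmain.2 hA K hK hδK).2, a_CLS hδ hA hK hδK, a_RBM hδ hA hK hδK⟩⟩
  · obtain ⟨C, hC, hCi, hCN⟩ : ∃ C : Set Ordinal.{u}, Clb K.ord C ∧
        (¬ CaseA δ → ∀ a ∈ C, a < K.ord → InacHOD a) ∧ NB δ K.ord C := by
      by_cases hA : CaseA δ
      · refine ⟨univ, clb_univ hK.aleph0_le, fun h => absurd hA h, fun x hx a _ _ B _ hp => ?_⟩
        refine Pool.Agent.H75.PRK.pf_COV δ hδ hA K.ord x (fun z hz => ?_) hx.few B hp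
        obtain ⟨a, h1, -, -, rfl⟩ := hx.mem z hz
        exact toZFSet_mem_toZFSet_iff.2 h1
      · obtain ⟨⟨C, hC, hCi, hCN⟩, -⟩ := hmain.2 hA K hK hδK
        exact ⟨C, hC, fun _ => hCi, hCN⟩
    refine ⟨C, hC, hCi, fun x hx a ha hf B hB hp => ?_⟩
    obtain ⟨Z, hZ, hBZ, ν, hν, hs⟩ := hCN x hx a ha hf B hB hp
    refine ⟨⟨Z, hZ, hBZ, ν, hν, hs⟩, fun hV => ?_⟩
    subst hD
    exact vdl hD0.le (Cardinal.ord_lt_ord.1 hν) hV hZ hs hBZ hB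
  · have hK : (succ γ).IsRegular := Cardinal.isRegular_succ hγ
    have hK0 : ℵ₀ < succ γ := lt_of_le_of_lt hγ (lt_succ γ)
    have hγK : γ.ord < (succ γ).ord := Cardinal.ord_lt_ord.2 (lt_succ γ)
    have hδK : δ < (succ γ).ord := hδγ.trans hγK
    refine ⟨⟨fun hA => ?_, ?_⟩, ⟨fun hA => a_CLS hδ hA hK hδK, fun h hA =>
      (cle hω hA hγ hns hδγ).1 h⟩, ⟨fun hA => a_RBM hδ hA hK hδK, fun h hA =>
      (cle hω hA hγ hns hδγ).2 h⟩⟩
    · obtain ⟨A, -, hA2, hA3⟩ := hINB δ hδ hA (succ γ) hK hδK univ (fun C hC => by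
        obtain ⟨b, hb1, hb2, -, hb3⟩ := HD.All.vc ℵ₀ (succ γ).ord Cardinal.isRegular_aleph0
          (by rw [hK.cof_ord]; exact hK0) C hC
        refine ⟨b, hb1, hb2, mem_univ _, ?_⟩
        have hb4 : b.cof.ord = (ℵ₀ : Cardinal.{u}).ord := hb3
        rw [hb4]
        exact hωδ)
      have hU : Unb (succ γ).ord A := by
        intro η hη
        obtain ⟨a, ha1, ha2, ha3, -⟩ := hA2 _ (clb_gt hK.1 hη)
        exact ⟨a, ha3, ha2, ha1⟩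
      exact ⟨A, hU, (hA3 _ le_rfl (lt_of_le_of_lt zero_le hγK) hU).1⟩
    · rintro ⟨A, h4, h5⟩ hA
      exact a_EQ δ hA γ hγ hns hδγ A h4 h5

end Pool.Agent.H97.PRK
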