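import Pool.Agent.H45.NF.PA
import Pool.Agent.H7.HD9.Asm9

/-!
# MP_e37c09_lc: small sets of points of a club. Definitions and targets
-/

open Ordinal Cardinal Order Set
open scoped ZFSet

universe u

namespace HD.PRK

/-! ## Statement-level definitions -/

/-- `x` is a nonempty set of fewer than `δ` ordinals below `κ` which are in `C` and of cofinality
less than `δ`. -/
structure Sml (δ κ : Ordinal.{u}) (C : Set Ordinal.{u}) (x : ZFSet.{u}) : Prop where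
  ne : ∃ z, z ∈ x
  mem : ∀ z ∈ x, ∃ a < κ, a ∈ C ∧ a.cof.ord < δ ∧ z = a.toZFSet
  few : ∃ τ < δ, ∃ g : Ordinal.{u} → Ordinal.{u}, ∀ a : Ordinal.{u}, a.toZFSet ∈ x →
    ∃ i < τ, g i = a

/-- For each small set `x` of points of `C` a subset `B` of `min x` which is definable from `x` and
ordinals is an element of an ordinal definable set with fewer than `δ` elements. -/
def NBm (δ κ : Ordinal.{u}) (C : Set Ordinal.{u}) : Prop :=
  ∀ x, Sml δ κ C x → ∀ B : ZFSet.{u}, (∀ z ∈ x, B ⊆ z) → NF.ODp x B →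
    ∃ Z, OD Z ∧ B ∈ Z ∧ ∃ ν : Cardinal.{u}, ν.ord < δ ∧ NF.Sz ν Z

/-- No new bounded sets: for each small set `x` of points of `C` and each `a ∈ x` such that
`x ∩ a` is finite (so `a = min x`, or any `a ∈ x` if `x` is of order type `ω`) a subset `B` of `a`
which is definable from `x` and ordinals is an element of an ordinal definable set with fewer than
`δ` elements. -/
def NB (δ κ : Ordinal.{u}) (C : Set Ordinal.{u}) : Prop :=
  ∀ x, Sml δ κ C x → ∀ a : Ordinal.{u}, a.toZFSet ∈ x →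
    {b : Ordinal.{u} | b.toZFSet ∈ x ∧ b < a}.Finite → ∀ B ⊆ a.toZFSet, NF.ODp x B →
      ∃ Z, OD Z ∧ B ∈ Z ∧ ∃ ν : Cardinal.{u}, ν.ord < δ ∧ NF.Sz ν Z

/-- Each regressive function on `β` in HOD is constant on a final segment of `A ∩ β`. -/
def Hom (β : Ordinal.{u}) (A : Set Ordinal.{u}) : Prop :=
  ∀ f, HOD f → ZFSet.IsFunc β.toZFSet β.toZFSet f →
    (∀ a b : Ordinal.{u}, ZFSet.pair a.toZFSet b.toZFSet ∈ f → 0 < a → b < a) →
    ∃ η < β, ∃ c : Ordinal.{u}, ∀ a ∈ A, η ≤ a → a < β → ZFSet.pair a.toZFSet c.toZFSet ∈ f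

/-- For each sequence `Y n`, `n < β`, in HOD the set of all `n` such that `Y n` contains a final
segment of `A ∩ β` is in HOD. -/
def Ame (β : Ordinal.{u}) (A : Set Ordinal.{u}) : Prop :=
  ∀ f y, HOD f → ZFSet.IsFunc β.toZFSet y f → ∃ s, HOD s ∧ ∀ n : Ordinal.{u}, n.toZFSet ∈ s ↔
    n < β ∧ ∃ Y, ZFSet.pair n.toZFSet Y ∈ f ∧ ∃ η < β, ∀ a ∈ A, η ≤ a → a < β → a.toZFSet ∈ Y

/-- `T` meets each club subset of `κ` in a point of cofinality less than `δ`. -/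
def St (δ κ : Ordinal.{u}) (T : Set Ordinal.{u}) : Prop :=
  ∀ C, Clb κ C → ∃ a < κ, a ∈ C ∧ a ∈ T ∧ a.cof.ord < δ

/-- `A` has elements below `β` arbitrarily close to `β`. -/
def Unb (β : Ordinal.{u}) (A : Set Ordinal.{u}) : Prop := ∀ η < β, ∃ a ∈ A, η < a ∧ a < β

/-- Each set which is stationary in the points of cofinality less than `δ` has such a subset `A`
which is homogeneous for HOD at all its limit points. -/
def IND (δ κ : Ordinal.{u}) : Prop := ∀ T, St δ κ T → ∃ A : Set Ordinal.{u},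
  (∀ a ∈ A, a ∈ T ∧ a.cof.ord < δ) ∧ St δ κ A ∧
    ∀ β ≤ κ, 0 < β → Unb β A → Hom β A ∧ Ame β A

/-! ## Positive classes of small sets -/

/-- `x` is a nonempty set of at most `μ` ordinals below `ρ` which are in `C` and of cofinality at
most `μ`. -/
structure SmS (μ ρ : Ordinal.{u}) (C : Set Ordinal.{u}) (x : ZFSet.{u}) : Prop where
  ne : ∃ z, z ∈ x
  mem : ∀ z ∈ x, ∃ a < ρ, a ∈ C ∧ a.cof.ord ≤ μ ∧ z = a.toZFSet
  few : ∃ g : Ordinal.{u} → Ordinal.{u}, ∀ a : Ordinal.{u}, a.toZFSet ∈ x → ∃ i < μ, g i = a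

/-- a positive class of small sets -/
def PosX (μ ρ : Ordinal.{u}) (P : ZFSet.{u} → Prop) : Prop :=
  ∀ C, Clb ρ C → ∃ x, SmS μ ρ C x ∧ P x

/-- the section of `F` at `x` -/
def sec (F x : ZFSet.{u}) : Set Ordinal.{u} := {a | ZFSet.pair x a.toZFSet ∈ F}

/-- the section at `x` agrees with `Y` below `i` -/
def Agr (F x : ZFSet.{u}) (i : Ordinal.{u}) (Y : Set Ordinal.{u}) : Prop :=
  ∀ a < i, a ∈ sec F x ↔ a ∈ Y

/-- `i` splits `F` at `ρ` -/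
def Spl (μ ρ : Ordinal.{u}) (F : ZFSet.{u}) (i : Ordinal.{u}) : Prop := ∃ Y : Set Ordinal.{u},
  PosX μ ρ (fun x => Agr F x i Y ∧ i ∈ sec F x) ∧ PosX μ ρ (fun x => Agr F x i Y ∧ i ∉ sec F x)

/-- the splitting points below `ρ` -/
def SpS (μ ρ : Ordinal.{u}) (F : ZFSet.{u}) : Set Ordinal.{u} := {i | i < ρ ∧ Spl μ ρ F i}

/-! ## Targets -/

/-- CI. Intersections of fewer than `K` club sets. -/
def T_CI : Prop := ∀ K : Cardinal.{u}, K.IsRegular → ℵ₀ < K → ∀ τ < K.ord,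
  ∀ C : Ordinal.{u} → Set Ordinal.{u}, (∀ i < τ, Clb K.ord (C i)) →
    Clb K.ord {b | ∀ i < τ, b ∈ C i}

/-- LPX. Positivity is locally definable. -/
def T_LPX : Prop := ∀ P : ZFSet.{u} → (ℕ → ZFSet.{u}) → Prop,
  (Loc fun v => P (v 0) (fun n => v (n + 1))) → ∀ i j : ℕ,
    Loc fun v => (v i).IsOrdinal ∧ (v j).IsOrdinal ∧
      PosX (v i).rank (v j).rank (fun x => P x v)

/-- LOC. Splitting is locally definable. -/
def T_LOC : Prop := Loc.{u} fun v => (v 0).IsOrdinal ∧ (v 1).IsOrdinal ∧ (v 3).IsOrdinal ∧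
  Spl (v 0).rank (v 1).rank (v 2) (v 3).rank

/-- LOP. The class in the definition of `Z` in `L3` is locally definable. -/
def T_LOP : Prop := Loc.{u} fun v => (v 0).IsOrdinal ∧ (v 1).IsOrdinal ∧ (v 3).IsOrdinal ∧
  PosX (v 0).rank (v 1).rank (fun x => Agr (v 2) x (v 3).rank {a | a.toZFSet ∈ v 4})

/-- LFW. To have few splitting points is locally definable. -/
def T_LFW : Prop := Loc.{u} fun v => (v 0).IsOrdinal ∧ (v 1).IsOrdinal ∧ (v 3).IsOrdinal ∧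
  (v 4).IsOrdinal ∧ Few (v 4).rank {i | i < (v 3).rank ∧ Spl (v 0).rank (v 1).rank (v 2) i}

/-- LUN. To have unboundedly many splitting points is locally definable. -/
def T_LUN : Prop := Loc.{u} fun v => (v 0).IsOrdinal ∧ (v 1).IsOrdinal ∧ (v 3).IsOrdinal ∧
  ∀ z < (v 3).rank, ∃ i, z < i ∧ i < (v 3).rank ∧ Spl (v 0).rank (v 1).rank (v 2) i

/-- The situation of the argument of Solovay for small sets. -/
structure SolX (δ η θ : Ordinal.{u}) (j : ZFSet.{u} → ZFSet.{u}) (K : Cardinal.{u})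
    (μ ρ : Ordinal.{u}) (F : ZFSet.{u}) : Prop where
  emb : Emb δ η θ j
  kreg : K.IsRegular
  dom : ω < δ
  dk : δ < K.ord
  kη : K.ord < η
  mu : ω ≤ μ
  mlt : μ < δ
  fη : F ∈ V_ η
  r1 : ∀ x < K.ord, Jo j x < ρ
  r2 : ∀ y < ρ, ∃ x < K.ord, y < Jo j x

/-- JX. The image of a small set. -/
def T_JX : Prop := ∀ δ η θ j K μ ρ F, SolX.{u} δ η θ j K μ ρ F → ∀ x : ZFSet.{u},
  x ⊆ K.ord.toZFSet → (∃ g : Ordinal.{u} → Ordinal.{u}, ∀ a : Ordinal.{u}, a.toZFSet ∈ x →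
    ∃ i < μ, g i = a) → ∀ z, z ∈ j x ↔ ∃ a : Ordinal.{u}, a.toZFSet ∈ x ∧ z = (Jo j a).toZFSet

/-- SJ1. For a club subset `E` of `ρ` there is a club subset `C` of `K` such that `j x` is a small
subset of `E` for each small subset `x` of `C`. -/
def T_SJ1 : Prop := ∀ δ η θ j K μ ρ F, SolX.{u} δ η θ j K μ ρ F →
  ∀ E, Clb ρ E → ∃ C, Clb K.ord C ∧ ∀ x, SmS μ K.ord C x → x ∈ V_ η ∧ SmS μ ρ E (j x)

/-- SJ2. For a club subset `C` of `K` there is a club subset `E` of `ρ` all of whose small subsets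
are of the form `j x` for a small subset `x` of `C`. -/
def T_SJ2 : Prop := ∀ δ η θ j K μ ρ F, SolX.{u} δ η θ j K μ ρ F →
  ∀ C, Clb K.ord C → ∃ E, Clb ρ E ∧ ∀ y, SmS μ ρ E y → ∃ x, SmS μ K.ord C x ∧ x ∈ V_ η ∧
    y = j x

/-- S1. The argument of Solovay for the splitting points. -/
def T_S1 : Prop := ∀ δ η θ j K μ ρ F, SolX.{u} δ η θ j K μ ρ F → ∀ i,
  (Spl μ ρ (j F) i ↔ ∃ i0 < η, i = Jo j i0 ∧ Spl μ K.ord F i0)

/-- AL. An ordinal of small cofinality which is regular in HOD. -/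
def T_AL : Prop := ∀ δ : Ordinal.{u}, Extendible δ → ¬ CaseA δ →
  ∃ α > δ, HReg α ∧ IsSuccLimit α ∧ α.cof.ord < δ

/-- CNA. The second embedding. -/
def T_CNA : Prop := ∀ (δ η θ : Ordinal.{u}) j (K : Cardinal.{u}) (μ ρ : Ordinal.{u}) F,
  SolX.{u} δ η θ j K μ ρ F → δ.cof.ord = δ → ∀ lam ≤ K.ord, IsSuccLimit lam → lam.cof.ord < δ →
    (∀ z < lam, ∃ i, z < i ∧ i < lam ∧ Spl μ K.ord F i) →
      ∃ ρ0 : Ordinal.{u}, (∀ z < lam, ∃ i, z < i ∧ i < lam ∧ Spl μ ρ0 F i) ∧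
        Few δ {i | i < lam ∧ Spl μ ρ0 F i}

/-- CNB. Transfer to `α`. -/
def T_CNB : Prop := ∀ (S X : Set Ordinal.{u}) (α δ lam : Ordinal.{u}), DS S → DS X → HReg α →
  IsSuccLimit α → δ ≤ α.card.ord → (∀ a < α, ∃ z < lam, nth S a z) →
  (∀ z < lam, ∃ a < α, ∃ y, nth S a y ∧ z < y) → (∀ z < lam, ∃ i ∈ X, z < i ∧ i < lam) →
    ¬ Few δ (X ∩ Iio lam)

/-- CON. The contradiction. -/
def T_CON : Prop := ∀ (δ η θ : Ordinal.{u}) j (K : Cardinal.{u}) (μ ρ : Ordinal.{u}) F,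
  SolX.{u} δ η θ j K μ ρ F → δ.cof.ord = δ → OD F → ∀ α, HReg α → IsSuccLimit α → δ < α →
    α.cof.ord < δ → (∀ a < α, ∃ z, nth (SpS μ K.ord F) a z) → False

/-- TWO. There are fewer than `δ` splitting points. -/
def T_TWO : Prop := ∀ δ : Ordinal.{u}, Extendible δ → ¬ CaseA δ → ∀ K : Cardinal.{u},
  K.IsRegular → δ < K.ord → ∀ μ < δ, ω ≤ μ → ∀ F, OD F → Few δ (SpS μ K.ord F)

/-- NU1. Unions of null classes. -/
def T_NU1 : Prop := ∀ (μ : Ordinal.{u}) (K : Cardinal.{u}), K.IsRegular → ℵ₀ < K →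
  ∀ (ι : Type (u + 1)) (P : ι → ZFSet.{u} → Prop), #ι < Cardinal.lift.{u + 1} K →
    (∀ i, ¬ PosX μ K.ord (P i)) → ¬ PosX μ K.ord (fun x => ∃ i, P i x)

/-- NU2. Diagonal unions of null classes. -/
def T_NU2 : Prop := ∀ (μ : Ordinal.{u}) (K : Cardinal.{u}), K.IsRegular → ℵ₀ < K →
  ∀ P : Ordinal.{u} → ZFSet.{u} → Prop, (∀ n < K.ord, ¬ PosX μ K.ord (P n)) →
    ∃ C, Clb K.ord C ∧ ∀ x, SmS μ K.ord C x → ∀ n, (∀ a : Ordinal.{u}, a.toZFSet ∈ x → n < a) →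
      ¬ P n x

/-- L3A. The sets `B n` are null. -/
def T_L3A : Prop := ∀ (D K : Cardinal.{u}), D.IsRegular → D.IsStrongLimit → ℵ₀ < D →
  K.IsRegular → D < K → ∀ (μ : Ordinal.{u}) (F : ZFSet.{u}), Few D.ord (SpS μ K.ord F) →
    ∀ n < K.ord, ¬ PosX μ K.ord fun x => ¬ PosX μ K.ord fun x' => Agr F x' n (sec F x)

/-- L3B. The number of the branches. -/
def T_L3B : Prop := ∀ (D K : Cardinal.{u}), D.IsStrongLimit → ℵ₀ < D →
  ∀ (μ : Ordinal.{u}) (F : ZFSet.{u}), Few D.ord (SpS μ K.ord F) → ∀ m < K.ord, IsSuccLimit m →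
    ∀ Z : ZFSet.{u}, (∀ Y ∈ Z, Y ⊆ m.toZFSet ∧
      ∀ n < m, PosX μ K.ord fun x => Agr F x n {a | a.toZFSet ∈ Y}) → ∃ ν < D, NF.Sz ν Z

/-- L3. If there are few splitting points then almost all sections are in small ordinal definable
sets. -/
def T_L3 : Prop := ∀ (D K : Cardinal.{u}), D.IsRegular → D.IsStrongLimit → ℵ₀ < D → K.IsRegular →
  D < K → ∀ μ < D.ord, ∀ F, OD F →
    (∀ (x : ZFSet.{u}) (a b : Ordinal.{u}), a ∈ sec F x → b.toZFSet ∈ x → a < b) →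
    Few D.ord (SpS μ K.ord F) → ∃ C, Clb K.ord C ∧ ∀ x, SmS μ K.ord C x →
      ∃ Z, OD Z ∧ os K.ord (sec F x) ∈ Z ∧ ∃ ν < D, NF.Sz ν Z

/-- a counterexample -/
def Bad (D : Cardinal.{u}) (x B : ZFSet.{u}) : Prop :=
  (∃ z, z ∈ x) ∧ (∀ z ∈ x, B ⊆ z) ∧ NF.ODp x B ∧ ¬ ∃ Z, OD Z ∧ B ∈ Z ∧ ∃ ν < D, NF.Sz ν Z

/-- DEF. The least counterexamples. -/
def T_DEF : Prop := ∀ D K : Cardinal.{u}, ∃ F, OD F ∧
  (∀ (x : ZFSet.{u}) (a b : Ordinal.{u}), a ∈ sec F x → b.toZFSet ∈ x → a < b) ∧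
  ∀ x ⊆ K.ord.toZFSet, ∀ B, Bad D x B → Bad D x (os K.ord (sec F x))

/-- NBA. No new subsets of `min x`. -/
def T_NBA : Prop := ∀ δ : Ordinal.{u}, Extendible δ → ¬ CaseA δ → ∀ K : Cardinal.{u},
  K.IsRegular → δ < K.ord → ∃ C, Clb K.ord C ∧ NBm δ K.ord C

/-- NBF. Finitely many points do not matter. -/
def T_NBF : Prop := ∀ (δ κ : Ordinal.{u}) (C : Set Ordinal.{u}), NBm δ κ C → NB δ κ C

/-! ## Homogeneous sets -/

/-- The set `C` for an atom `c`, an enumeration `e` of the subsets of `K` in HOD and a pairing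
function `t`. -/
structure GC (en : Ordinal.{u} → ZFSet.{u}) (M K : Cardinal.{u}) (c : Ordinal.{u})
    (C : Set Ordinal.{u}) (t : Ordinal.{u} → Ordinal.{u} → Ordinal.{u})
    (e : Ordinal.{u} → ZFSet.{u}) : Prop where
  hen : EN en
  kreg : K.IsRegular
  kunc : ℵ₀ < K
  atom : Atom en M.ord K.ord c
  tdo : DO fun w => w 2 = t (w 0) (w 1)
  tinj : ∀ a b a' b', t a b = t a' b' → a = a' ∧ b = b'
  tlt : ∀ a < K.ord, ∀ b < K.ord, t a b < K.ord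
  clb : Clb K.ord C
  cl : ∀ β ∈ C, β < K.ord → IsSuccLimit β ∧ ∀ a < β, ∀ b < β, t a b < β
  he : ∀ z, HOD (e z) ∧ e z ⊆ K.ord.toZFSet
  ve1 : ∀ β ∈ C, β < K.ord → ∀ x, HOD x → x ⊆ β.toZFSet → ∃ z < β, x = e z ∩ β.toZFSet
  ve2 : ∀ x, HOD x → x ⊆ K.ord.toZFSet → ∃ z < K.ord, x = e z
  nrm : ∀ z < K.ord,
    (∃ n0, ∀ a ∈ C, a ∈ E en c → Cf M.ord a → z < a → a < K.ord →
      n0 < a ∧ (t a n0).toZFSet ∈ e z ∧ ∀ n < n0, (t a n).toZFSet ∉ e z) ∨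
    ∀ a ∈ C, a ∈ E en c → Cf M.ord a → z < a → a < K.ord → ∀ n < a, (t a n).toZFSet ∉ e z
  dec : ∀ z < K.ord, ∀ n < K.ord, ∀ a ∈ C, a ∈ E en c → Cf M.ord a → z < a → n < a → a < K.ord →
    ((t n a).toZFSet ∈ e z ↔
      ¬ Pos M.ord K.ord {b | b ∈ E en c ∧ (t n b).toZFSet ∉ e z})

/-- GCX. Existence. -/
def T_GCX : Prop := ∀ en : Ordinal.{u} → ZFSet.{u}, EN en → ∀ (M K : Cardinal.{u}), K.IsRegular →
  ℵ₀ < K → VE K → ∀ c, Atom en M.ord K.ord c → ∃ C t e, GC en M K c C t e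

/-- HOM. -/
def T_HOM : Prop := ∀ en M K c C t e, GC.{u} en M K c C t e → ∀ A : Set Ordinal.{u},
  (∀ a ∈ A, a ∈ C ∧ a ∈ E en c ∧ Cf M.ord a) → ∀ β ≤ K.ord, 0 < β → Unb β A → Hom β A

/-- AME. -/
def T_AME : Prop := ∀ en M K c C t e, GC.{u} en M K c C t e → ∀ A : Set Ordinal.{u},
  (∀ a ∈ A, a ∈ C ∧ a ∈ E en c ∧ Cf M.ord a) → ∀ β ≤ K.ord, 0 < β → Unb β A → Ame β A

/-- INB. -/
def T_INB : Prop := ∀ δ : Ordinal.{u}, Extendible δ → ¬ CaseA δ → ∀ K : Cardinal.{u},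
  K.IsRegular → δ < K.ord → IND δ K.ord

/-- EQ. -/
def T_EQ : Prop := ∀ δ : Ordinal.{u}, CaseA δ → ∀ γ : Cardinal.{u}, ℵ₀ ≤ γ → ¬ γ.IsRegular →
  δ < γ.ord → ∀ A : Set Ordinal.{u}, Unb (succ γ).ord A → ¬ Hom (succ γ).ord A

/-- The theorem. -/
def T_MAIN : Prop := ∀ δ : Ordinal.{u}, Extendible δ →
  (¬ CaseA δ ↔ ∃ γ : Cardinal.{u}, ℵ₀ ≤ γ ∧ ¬ γ.IsRegular ∧ δ < γ.ord ∧
    ∃ A : Set Ordinal.{u}, Unb (succ γ).ord A ∧ Hom (succ γ).ord A) ∧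
  (¬ CaseA δ → ∀ K : Cardinal.{u}, K.IsRegular → δ < K.ord →
    (∃ C, Clb K.ord C ∧ (∀ a ∈ C, a < K.ord → InacHOD a) ∧ NB δ K.ord C) ∧ IND δ K.ord)

end HD.PRK
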